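import Pool.Agent.H211.HY.Stm5
import Pool.Agent.H922.HY211.NORM

/-!
# Normalisation with the rate
(adaptation of `Pool/Agent/H721/HY211/NORM2.lean` and `Pool/Agent/H922/HY211/NORM.lean`)
-/

set_option autoImplicit false

open Topology Filter Metric Set MeasureTheory Polynomial

namespace Pool.Agent.H345.HY211

open Pool.Agent.H790R3.RB Pool.Agent.H790R3.RB.ALL Pool.Agent.H211.HY Pool.Agent.H922.HY211

/-- `PCFn` is invariant under linear conjugation -/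
theorem PCFn_L {d : ℕ} {a b c e : ℂ} {x y : CV d} {N : ℕ} (hd : 2 ≤ d) (hdet : a * e - b * c = 1)
    (hR : Rel a b c e x y) (h : PCFn x N) : PCFn y N := by
  intro q hq hw
  obtain ⟨p, hp, rfl⟩ := L_surj hdet hq
  rw [wr_L hd hdet hR] at hw
  obtain ⟨n, hn, hnN, c', hc', hwc, hcr⟩ := h p hp hw
  refine ⟨n, hn, hnN, L a b c e c', L_ne hdet hc', ?_, ?_⟩
  · rw [wr_L hd hdet hR, hwc]
  · rw [hF_iter_L hdet hR, cr_L hdet, hcr]

/-- factorisations are transformed to factorisations -/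
theorem fac_L {d k : ℕ} {a b c e : ℂ} {x y : CV d} (hd : 2 ≤ d) (hdet : a * e - b * c = 1)
    (hR : Rel a b c e x y) {A : ℂ} {m : Fin k → ℕ} {C : Fin k → ℂ × ℂ}
    (h : ∀ p, wr x p = A * ∏ i, cr p (C i) ^ m i) (q : ℂ × ℂ) :
    wr y q = A * ∏ i, cr q (L a b c e (C i)) ^ m i := by
  have h1 := wr_L hd hdet hR (L e (-b) (-c) a q)
  rw [L_inv hdet, h] at h1
  rw [h1]
  congr 1
  refine Finset.prod_congr rfl fun i _ => ?_
  rw [← cr_L hdet (L e (-b) (-c) a q) (C i), L_inv hdet]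

theorem SameM_L {d : ℕ} {a b c e : ℂ} {x y x' y' : CV d} (hd : 2 ≤ d)
    (hdet : a * e - b * c = 1) (hR : Rel a b c e x y) (hR' : Rel a b c e x' y')
    (h : SameM x x') : SameM y y' := by
  obtain ⟨k, m, C, C', A, A', hA, hA', hm, hC, hx, hx'⟩ := h
  refine ⟨k, m, fun i => L a b c e (C i), fun i => L a b c e (C' i), A, A', hA, hA', hm,
    fun i j hij => ?_, fac_L hd hdet hR hx, fac_L hd hdet hR' hx'⟩
  rw [cr_L hdet, cr_L hdet]
  exact hC i j hij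

theorem t_NORM4 : S_NORM4 := by
  intro d x hX hyp'
  have hd := hX.hd
  obtain ⟨t, ht⟩ := avoid x hd hX.ce
  obtain ⟨cj, hcd, -, -, -, hcj⟩ := CJ d
  have hdet : (1 : ℂ) * 1 - 0 * t = 1 := by ring
  have hdet' : (1 : ℂ) * 1 - 0 * (-t) = 1 := by ring
  set m : (ℂ × ℂ) × (ℂ × ℂ) := ((1, 0), (t, 1)) with hm
  set mi : (ℂ × ℂ) × (ℂ × ℂ) := ((1, 0), (-t, 1)) with hmi
  set y : CV d := cj m x with hy
  have hR1 : Rel 1 0 t 1 x y := fun p => by rw [hy, hcj m x p]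
  have hR2 : ∀ z : CV d, Rel 1 0 (-t) 1 z (cj mi z) := fun z p => by rw [hcj mi z p]
  have hNDy : ND y := nd_of_rel hdet hR1 hX.nd
  have hback : cj mi y = x := by
    apply hF_inj
    intro p
    rw [hR2 y p]
    have e1 := rel_apply hdet hR1 p
    have e2 : ((1 * p.1 - 0 * p.2, 1 * p.2 - -t * p.1) : ℂ × ℂ) =
        (1 * p.1 + 0 * p.2, t * p.1 + 1 * p.2) := by
      refine Prod.ext ?_ ?_
      · change 1 * p.1 - 0 * p.2 = 1 * p.1 + 0 * p.2
        ring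
      · change 1 * p.2 - -t * p.1 = t * p.1 + 1 * p.2
        ring
    rw [e2, e1]
    refine Prod.ext ?_ ?_
    · change 1 * (1 * (hF x p).1 + 0 * (hF x p).2) +
        0 * (t * (hF x p).1 + 1 * (hF x p).2) = (hF x p).1
      ring
    · change -t * (1 * (hF x p).1 + 0 * (hF x p).2) +
        1 * (t * (hF x p).1 + 1 * (hF x p).2) = (hF x p).2
      ring
  -- the hypotheses for `y`
  have hHy : Hyp0 y := ⟨hd, hNDy, CE_L hd hX.nd hdet hR1 hX.ce, fun hL =>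
    hX.lat (Lat_L hd hdet hR1 hL)⟩
  have hNy2 : ∀ c : ℂ × ℂ, c ≠ 0 → wr y c = 0 → ∀ n : ℕ, ((hF y)^[n] c).2 ≠ 0 := by
    intro q hq hw n
    obtain ⟨p, hp, rfl⟩ := L_surj hdet hq
    rw [wr_L hd hdet hR1] at hw
    rw [hF_iter_L hdet hR1]
    change t * ((hF x)^[n] p).1 + 1 * ((hF x)^[n] p).2 ≠ 0
    rw [one_mul]
    exact ht p hp hw hX.nd n
  have hNy : Nrm y := ⟨fun h => hNy2 (1, 0) (by simp) h 0 rfl, hNy2⟩
  -- the conjugation is Lipschitz near `y`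
  have hcd1 : ContDiffAt ℂ 1 (fun z : CV d => cj mi z) y :=
    (hcd.comp (contDiff_const.prodMk contDiff_id)).contDiffAt
  obtain ⟨Kl, s, hs, hlip⟩ := hcd1.exists_lipschitzOnWith
  obtain ⟨δ, hδ, hball⟩ := Metric.mem_nhds_iff.1 hs
  obtain ⟨B, T₀, K, hz⟩ := hyp' y hHy hNy
  have hlim : Tendsto (fun T : ℕ => K * (1 / 2 : ℝ) ^ T) atTop (𝓝 (K * 0)) :=
    (tendsto_pow_atTop_nhds_zero_of_lt_one (by norm_num) (by norm_num)).const_mul K
  rw [mul_zero] at hlim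
  obtain ⟨T₁, hT₁⟩ := Filter.eventually_atTop.1 (hlim.eventually (gt_mem_nhds hδ))
  refine ⟨B, max T₀ T₁, Kl * K, fun T hT => ?_⟩
  obtain ⟨z, hzy, hNDz, hPz, hSz⟩ := hz T ((le_max_left _ _).trans hT)
  have hND2 : ND (cj mi z) := nd_of_rel hdet' (hR2 z) hNDz
  refine ⟨cj mi z, ?_, hND2, PCFn_L hd hdet' (hR2 z) hPz, ?_⟩
  · have h1 : z ∈ s := by
      apply hball
      rw [mem_ball, dist_eq_norm]
      exact hzy.trans_lt (hT₁ T ((le_max_right _ _).trans hT))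
    have h2 : y ∈ s := mem_of_mem_nhds hs
    have h3 := hlip.dist_le_mul z h1 y h2
    rw [hback, dist_eq_norm, dist_eq_norm] at h3
    refine h3.trans ?_
    rw [mul_assoc]
    exact mul_le_mul_of_nonneg_left hzy Kl.2
  · have h1 := SameM_L hd hdet' (hR2 y) (hR2 z) hSz
    rwa [hback] at h1

end Pool.Agent.H345.HY211
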